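import Pool.Agent.H694_ABV.Final

/-!
# The filtrations and decompositions of the generic zero-cycle
-/

open AlgebraicGeometry Pool.Agent.H694_ABV

universe u

/-- Let `k` be a perfect field and `N` a natural number or `∞`.

If filtrations with (A), (B), (C) and (D) exist on all `h₀^{ét}(X)_R` with `dim X < N`, for one
nonzero torsion-free ring of coefficients `R`, then the generic zero-cycle of every smooth `X` with
`dim X = d < N` has a decomposition, with coefficients in any `ℚ`-algebra `S`.

Conversely, let `R` and `S ≠ 0` be `ℚ`-algebras. If every integral affine smooth `X` with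
`dim X < N` has a nonempty étale `X`-scheme whose generic zero-cycle has a decomposition with
coefficients in `S`, then the filtrations exist over `R`. -/
theorem Pool.Agent.Results.MP_44891b_ag.GenericCycle.result {k : Type u} [Field k]
    [PerfectField k] (N : ℕ∞) :
    (∀ (R S : Type u) [CommRing R] [Nontrivial R] [IsAddTorsionFree R] [CommRing S] [Algebra ℚ S],
      (∃ F : ∀ X : Sm k, ℕ → ClosedSub R X, IsFiltrationBelow N F) →
      ∀ (d : ℕ) (X : Sm k), X.DimBelow N → topologicalKrullDim X.sch.left = d →
        GenericDecomposition S d X) ∧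
    (∀ (R S : Type u) [CommRing R] [Algebra ℚ R] [CommRing S] [Algebra ℚ S] [Nontrivial S],
      (∀ X : Sm k, X.DimBelow N → IsIntegral X.sch.left → IsAffine X.sch.left →
        ∃ (V : Sm k) (f : V.sch ⟶ X.sch), Etale f.left ∧ Nonempty V.sch.left ∧
          ∀ d : ℕ, topologicalKrullDim V.sch.left = d → GenericDecomposition S d V) →
      ∃ F : ∀ X : Sm k, ℕ → ClosedSub R X, IsFiltrationBelow N F) := by
  refine ⟨?_, fun R S _ _ _ _ _ h => filtration_of_decomposition h⟩
  rintro R S _ _ _ _ _ ⟨F, hF⟩ d X hX hd
  exact decomposition_of_filtration hF d X hX hd
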