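import Pool.Agent.H694_ABV.Final
import Pool.Agent.H694_ABV.Disj

/-!
# A criterion with one condition for the filtrations with (A), (B), (C) and (D)
-/

open AlgebraicGeometry Pool.Agent.H694_ABV

universe u

/-- Let `k` be a perfect field and `N` a natural number or `∞`.

If for every smooth `X` of dimension `d < N` the intersection of all subobjects of `h₀^{ét}(X)_R`
whose quotient is generated by the images of the `h₀^{ét}(Y)_R` with `dim Y < d` again has such a
quotient, then filtrations with (A), (B), (C) and (D) exist on all `h₀^{ét}(X)_R` with
`dim X < N`. This holds for every ring of coefficients `R`.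

Conversely, if the filtrations exist over one nonzero torsion-free ring `R`, then the condition
holds over every `ℚ`-algebra `S`. -/
theorem Pool.Agent.Results.MP_44891b_ag.LeastQuotient.result {k : Type u} [Field k]
    [PerfectField k] (N : ℕ∞) :
    (∀ (R : Type u) [CommRing R],
      (∀ (d : ℕ) (X : Sm k), X.DimBelow N → topologicalKrullDim X.sch.left = d →
        GeneratedBelow d (minBelow R d X)) →
      ∃ F : ∀ X : Sm k, ℕ → ClosedSub R X, IsFiltrationBelow N F) ∧
    (∀ (R S : Type u) [CommRing R] [Nontrivial R] [IsAddTorsionFree R] [CommRing S] [Algebra ℚ S],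
      (∃ F : ∀ X : Sm k, ℕ → ClosedSub R X, IsFiltrationBelow N F) →
      ∀ (d : ℕ) (X : Sm k), X.DimBelow N → topologicalKrullDim X.sch.left = d →
        GeneratedBelow d (minBelow S d X)) := by
  refine ⟨fun R _ h => exists_filtration_of_minBelow h, ?_⟩
  rintro R S _ _ _ _ _ ⟨F, hF⟩ d X hX hd
  exact (decomposition_of_filtration (S := S) hF d X hX hd).crit.1
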