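import Pool.Agent.H694_ABV.Dim

/-!
# Filtrations with (A), (B) and (D): reduction to the top step
-/

open AlgebraicGeometry Pool.Agent.H694_ABV

universe u

/-- Filtrations of all `h₀^{ét}(X)_R` with (A), (B) and (D) exist if and only if for every `X`, of
dimension `d` say, the quotient of `h₀^{ét}(X)_R` by the common kernel of all correspondences from
`X` to smooth schemes of dimension less than `d` is generated by the images of the `h₀^{ét}(Y)_R`
with `dim Y < d`. -/
theorem Pool.Agent.Results.MP_44891b_ag.TopStepABD.result {k : Type u} [Field k] (R : Type u)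
    [CommRing R] :
    (∃ F : ∀ X : Sm k, ℕ → ClosedSub R X, IsFiltrationABD F) ↔
      ∀ (d : ℕ) (X : Sm k), topologicalKrullDim X.sch.left = d →
        GeneratedBelow d (kerBelow R d X) :=
  exists_isFiltrationABD_iff
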